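import Pool.Agent.N659.HB.Stm3
import Pool.Agent.N507.HB.Bes

/-! KS/D3U: bounded density of states in dimension at least three. -/

set_option autoImplicit false

namespace Pool.Agent.N427.KS

open MeasureTheory Filter Set Pool.Agent.W792.LL Pool.Agent.W792.WA Pool.Agent.N659.HB
open Pool.Agent.W688.LL.Osc Pool.Agent.W174.WA.KA
open scoped Topology ENNReal

noncomputable section

/-- first derivative test -/
theorem fdt {c d κ K : ℝ} (hcd : c ≤ d) (hκ : 0 < κ) (ψ φ χ : ℝ → ℝ)
    (h1 : ∀ x ∈ Icc c d, HasDerivAt ψ (φ x) x) (h2 : ∀ x ∈ Icc c d, HasDerivAt φ (χ x) x)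
    (h3 : ContinuousOn χ (Icc c d)) (h4 : ∀ x ∈ Icc c d, κ ≤ |φ x|)
    (h5 : ∀ x ∈ Icc c d, |χ x| ≤ K) :
    ‖∫ x in c..d, Complex.exp (Complex.I * (ψ x : ℂ))‖ ≤ 2 / κ + K / κ ^ 2 * (d - c) := by
  have hu : uIcc c d = Icc c d := uIcc_of_le hcd
  have hφ0 : ∀ x ∈ Icc c d, φ x ≠ 0 := by
    intro x hx h
    have := h4 x hx
    rw [h, abs_zero] at this
    linarith
  have cψ : ContinuousOn ψ (Icc c d) := fun x hx => (h1 x hx).continuousAt.continuousWithinAt
  have cφ : ContinuousOn φ (Icc c d) := fun x hx => (h2 x hx).continuousAt.continuousWithinAt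
  have cE : ContinuousOn (fun x => Complex.exp (Complex.I * (ψ x : ℂ))) (Icc c d) := by
    apply Complex.continuous_exp.comp_continuousOn
    exact continuousOn_const.mul (Complex.continuous_ofReal.comp_continuousOn cψ)
  have nE : ∀ x, ‖Complex.exp (Complex.I * (ψ x : ℂ))‖ = 1 := by
    intro x
    rw [mul_comm]
    exact Complex.norm_exp_ofReal_mul_I _
  set G : ℝ → ℝ := fun x => (φ x)⁻¹ with hG
  set G' : ℝ → ℝ := fun x => -χ x / φ x ^ 2 with hG'
  have dG : ∀ x ∈ Icc c d, HasDerivAt G (G' x) x := fun x hx => (h2 x hx).inv (hφ0 x hx)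
  have cG : ContinuousOn G (Icc c d) := fun x hx => (dG x hx).continuousAt.continuousWithinAt
  have cG' : ContinuousOn G' (Icc c d) :=
    h3.neg.div (cφ.pow 2) fun x hx => pow_ne_zero 2 (hφ0 x hx)
  have bG : ∀ x ∈ Icc c d, |G x| ≤ 1 / κ := by
    intro x hx
    simp only [hG]
    rw [abs_inv, ← one_div]
    exact one_div_le_one_div_of_le hκ (h4 x hx)
  have bG' : ∀ x ∈ Icc c d, |G' x| ≤ K / κ ^ 2 := by
    intro x hx
    simp only [hG']
    rw [abs_div, abs_neg, abs_pow]
    have hK : 0 ≤ K := (abs_nonneg _).trans (h5 x hx)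
    have h6 : κ ^ 2 ≤ |φ x| ^ 2 := pow_le_pow_left₀ hκ.le (h4 x hx) 2
    exact div_le_div₀ hK (h5 x hx) (by positivity) h6
  have dH : ∀ x ∈ Icc c d, HasDerivAt (fun x => (G x : ℂ) * Complex.exp (Complex.I * (ψ x : ℂ)))
      ((G' x : ℂ) * Complex.exp (Complex.I * (ψ x : ℂ))
        + (G x : ℂ) * (Complex.exp (Complex.I * (ψ x : ℂ)) * (Complex.I * (φ x : ℂ)))) x := by
    intro x hx
    exact ((dG x hx).ofReal_comp).mul (((h1 x hx).ofReal_comp.const_mul Complex.I).cexp)
  have cH' : ContinuousOn (fun x => (G' x : ℂ) * Complex.exp (Complex.I * (ψ x : ℂ))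
        + (G x : ℂ) * (Complex.exp (Complex.I * (ψ x : ℂ)) * (Complex.I * (φ x : ℂ)))) (Icc c d) :=
    ((Complex.continuous_ofReal.comp_continuousOn cG').mul cE).add
      ((Complex.continuous_ofReal.comp_continuousOn cG).mul
        (cE.mul (continuousOn_const.mul (Complex.continuous_ofReal.comp_continuousOn cφ))))
  set w : ℝ → ℂ := fun x => Complex.I * ((G' x : ℂ) * Complex.exp (Complex.I * (ψ x : ℂ))) with hw
  have cw : ContinuousOn w (Icc c d) :=
    continuousOn_const.mul ((Complex.continuous_ofReal.comp_continuousOn cG').mul cE)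
  have hsplit : ∀ x ∈ Icc c d, Complex.exp (Complex.I * (ψ x : ℂ)) =
      -Complex.I * ((G' x : ℂ) * Complex.exp (Complex.I * (ψ x : ℂ))
        + (G x : ℂ) * (Complex.exp (Complex.I * (ψ x : ℂ)) * (Complex.I * (φ x : ℂ)))) + w x := by
    intro x hx
    have e1 : (G x : ℂ) * (φ x : ℂ) = 1 := by
      rw [← Complex.ofReal_mul, ← Complex.ofReal_one]
      congr 1
      exact inv_mul_cancel₀ (hφ0 x hx)
    simp only [hw]
    linear_combination (-Complex.exp (Complex.I * (ψ x : ℂ))) * e1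
      + (G x : ℂ) * Complex.exp (Complex.I * (ψ x : ℂ)) * (φ x : ℂ) * Complex.I_sq
  have hint : ∫ x in c..d, Complex.exp (Complex.I * (ψ x : ℂ)) =
      -Complex.I * ((G d : ℂ) * Complex.exp (Complex.I * (ψ d : ℂ))
        - (G c : ℂ) * Complex.exp (Complex.I * (ψ c : ℂ))) + ∫ x in c..d, w x := by
    have i1 : IntervalIntegrable (fun x => (G' x : ℂ) * Complex.exp (Complex.I * (ψ x : ℂ))
        + (G x : ℂ) * (Complex.exp (Complex.I * (ψ x : ℂ)) * (Complex.I * (φ x : ℂ)))) volume c d :=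
      ContinuousOn.intervalIntegrable (by rw [hu]; exact cH')
    have i2 : IntervalIntegrable w volume c d :=
      ContinuousOn.intervalIntegrable (by rw [hu]; exact cw)
    have e2 := intervalIntegral.integral_eq_sub_of_hasDerivAt
      (f := fun x => (G x : ℂ) * Complex.exp (Complex.I * (ψ x : ℂ)))
      (fun x hx => dH x (by rwa [hu] at hx)) i1
    rw [← e2, ← intervalIntegral.integral_const_mul,
      ← intervalIntegral.integral_add (i1.const_mul _) i2]
    exact intervalIntegral.integral_congr (fun x hx => hsplit x (by rwa [hu] at hx))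
  have hwint : ‖∫ x in c..d, w x‖ ≤ K / κ ^ 2 * (d - c) := by
    have h7 := intervalIntegral.norm_integral_le_of_norm_le_const (a := c) (b := d)
      (C := K / κ ^ 2) (f := w) (by
        intro x hx
        rw [uIoc_of_le hcd] at hx
        simp only [hw]
        rw [norm_mul, Complex.norm_I, one_mul, norm_mul, nE, mul_one, Complex.norm_real,
          Real.norm_eq_abs]
        exact bG' x ⟨hx.1.le, hx.2⟩)
    rwa [abs_of_nonneg (by linarith)] at h7
  rw [hint]
  refine (norm_add_le _ _).trans (add_le_add ?_ hwint)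
  rw [norm_mul, norm_neg, Complex.norm_I, one_mul]
  refine (norm_sub_le _ _).trans ?_
  rw [norm_mul, norm_mul, nE, nE, mul_one, mul_one, Complex.norm_real, Complex.norm_real,
    Real.norm_eq_abs, Real.norm_eq_abs]
  have e3 := bG d (right_mem_Icc.2 hcd)
  have e4 := bG c (left_mem_Icc.2 hcd)
  calc |G d| + |G c| ≤ 1 / κ + 1 / κ := add_le_add e3 e4
    _ = 2 / κ := by ring

/-- a piece where the sine is large -/
theorem piece_sin (M : ℝ) {c d : ℝ} (hcd : c ≤ d) (hd : d - c ≤ 1 / 6) (hM : M ≠ 0)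
    (hs : ∀ t ∈ Icc c d, 1 / 2 ≤ |Real.sin (2 * Real.pi * t)|) :
    ‖∫ t in c..d, Complex.exp (Complex.I * (ps M 0 t : ℂ))‖ ≤ 1 / |M| := by
  have hM0 : 0 < |M| := abs_pos.mpr hM
  have hpi3 := Real.pi_gt_three
  have hpi4 := Real.pi_lt_d2
  have h := fdt (κ := 6 * |M|) (K := 80 * |M|) hcd (by positivity) (ps M 0) (ph M 0)
    (Pool.Agent.W688.LL.Osc.ch M)
    (fun t _ => d1 M 0 t) (fun t _ => d2 M 0 t) (cch M).continuousOn
    (by
      intro t ht
      have h1 := hs t ht
      unfold ph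
      rw [Int.cast_zero, mul_zero, zero_add, abs_mul, abs_mul, abs_mul, abs_of_pos Real.pi_pos,
        abs_of_pos (by norm_num : (0 : ℝ) < 4)]
      have h2 : 6 ≤ 4 * Real.pi * |Real.sin (2 * Real.pi * t)| := by nlinarith
      nlinarith)
    (by
      intro t _
      unfold Pool.Agent.W688.LL.Osc.ch
      have h1 := Real.abs_cos_le_one (2 * Real.pi * t)
      rw [abs_mul, abs_mul, abs_mul, abs_of_pos (by positivity : (0 : ℝ) < Real.pi ^ 2),
        abs_of_pos (by norm_num : (0 : ℝ) < 8)]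
      have h2 : 8 * Real.pi ^ 2 ≤ 80 := by nlinarith
      calc 8 * Real.pi ^ 2 * |M| * |Real.cos (2 * Real.pi * t)| ≤ 80 * |M| * 1 := by gcongr
        _ = 80 * |M| := mul_one _)
  refine h.trans ?_
  have e1 : 2 / (6 * |M|) + 80 * |M| / (6 * |M|) ^ 2 * (d - c) =
      (1 / 3 + 20 / 9 * (d - c)) / |M| := by
    field_simp
    ring
  rw [e1]
  gcongr
  linarith

theorem sin_low {t : ℝ} (h : |t| ≤ 1 / 12) : 1 / 2 ≤ Real.cos (2 * Real.pi * t) := by
  have := cos_low (τ := 1 / 6) (t := t) (by norm_num) (by norm_num) (by linarith)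
  have hpi := Real.pi_pos
  rw [← Real.cos_abs, abs_mul, abs_of_pos (by positivity : (0 : ℝ) < 2 * Real.pi)]
  have e1 : Real.cos (Real.pi / 3) ≤ Real.cos (2 * Real.pi * |t|) := by
    apply Real.cos_le_cos_of_nonneg_of_le_pi (by positivity) (by linarith)
    nlinarith
  rw [Real.cos_pi_div_three] at e1
  exact e1

theorem cos_half {t : ℝ} (h : |t| ≤ 1 / 6) : 1 / 2 ≤ Real.cos (2 * Real.pi * t) := by
  have hpi := Real.pi_pos
  rw [← Real.cos_abs, abs_mul, abs_of_pos (by positivity : (0 : ℝ) < 2 * Real.pi)]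
  have e1 : Real.cos (Real.pi / 3) ≤ Real.cos (2 * Real.pi * |t|) := by
    apply Real.cos_le_cos_of_nonneg_of_le_pi (by positivity) (by linarith)
    nlinarith
  rw [Real.cos_pi_div_three] at e1
  exact e1

theorem k1_decay (M : ℝ) (hM : 1 ≤ |M|) : ‖k1 M 0‖ ≤ 27 / Real.sqrt |M| := by
  have hM0 : M ≠ 0 := by
    intro h
    rw [h, abs_zero] at hM
    linarith
  have hMp : 0 < |M| := abs_pos.2 hM0
  rw [k1_eq]
  have hi : ∀ c d : ℝ, IntervalIntegrable (fun t => Complex.exp (Complex.I * (ps M 0 t : ℂ)))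
      volume c d := fun c d => (cps M 0).intervalIntegrable c d
  have s1 := intervalIntegral.integral_add_adjacent_intervals (hi (-(1 / 4)) (-(1 / 6)))
    (hi (-(1 / 6)) (1 / 6))
  have s2 := intervalIntegral.integral_add_adjacent_intervals (hi (-(1 / 4)) (1 / 6))
    (hi (1 / 6) (1 / 3))
  have s3 := intervalIntegral.integral_add_adjacent_intervals (hi (-(1 / 4)) (1 / 3))
    (hi (1 / 3) (2 / 3))
  have s4 := intervalIntegral.integral_add_adjacent_intervals (hi (-(1 / 4)) (2 / 3))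
    (hi (2 / 3) (-(1 / 4) + 1))
  have b1 := piece_sin M (c := -(1 / 4)) (d := -(1 / 6)) (by norm_num) (by norm_num) hM0 (by
    intro t ht
    have h1 := cos_half (t := t + 1 / 4) (by rw [abs_le]; constructor <;> linarith [ht.1, ht.2])
    have h2 : 2 * Real.pi * (t + 1 / 4) = 2 * Real.pi * t + Real.pi / 2 := by ring
    rw [h2, Real.cos_add_pi_div_two] at h1
    rw [← abs_neg]
    exact h1.trans (le_abs_self _))
  have b2 := piece M 0 (c := -(1 / 6)) (d := 1 / 6) (τ := 1 / 2) (by norm_num) (by norm_num) hM0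
    (by
      left
      intro t ht
      exact cos_half (by rw [abs_le]; constructor <;> linarith [ht.1, ht.2]))
  have b3 := piece_sin M (c := 1 / 6) (d := 1 / 3) (by norm_num) (by norm_num) hM0 (by
    intro t ht
    have h1 := cos_half (t := t - 1 / 4) (by rw [abs_le]; constructor <;> linarith [ht.1, ht.2])
    have h2 : 2 * Real.pi * (t - 1 / 4) = 2 * Real.pi * t - Real.pi / 2 := by ring
    rw [h2, Real.cos_sub_pi_div_two] at h1
    exact h1.trans (le_abs_self _))
  have b4 := piece M 0 (c := 1 / 3) (d := 2 / 3) (τ := 1 / 2) (by norm_num) (by norm_num) hM0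
    (by
      right
      intro t ht
      have h1 := cos_half (t := t - 1 / 2) (by rw [abs_le]; constructor <;> linarith [ht.1, ht.2])
      have h2 : 2 * Real.pi * (t - 1 / 2) = 2 * Real.pi * t - Real.pi := by ring
      rw [h2, Real.cos_sub_pi] at h1
      linarith)
  have b5 := piece_sin M (c := 2 / 3) (d := -(1 / 4) + 1) (by norm_num) (by norm_num) hM0 (by
    intro t ht
    have h1 := cos_half (t := t - 3 / 4) (by rw [abs_le]; constructor <;> linarith [ht.1, ht.2])
    have h2 : 2 * Real.pi * (t - 3 / 4) = (2 * Real.pi * t - Real.pi) - Real.pi / 2 := by ring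
    rw [h2, Real.cos_sub_pi_div_two, Real.sin_sub_pi] at h1
    rw [← abs_neg]
    exact h1.trans (le_abs_self _))
  rw [← s4, ← s3, ← s2, ← s1]
  have hsq : 1 / |M| ≤ 1 / Real.sqrt |M| := by
    apply one_div_le_one_div_of_le (Real.sqrt_pos.2 hMp)
    rw [Real.sqrt_le_left hMp.le]
    nlinarith
  have h8 : 8 / Real.sqrt (|M| * (1 / 2)) ≤ 12 / Real.sqrt |M| := by
    rw [Real.sqrt_mul hMp.le]
    have h9 : 2 / 3 ≤ Real.sqrt (1 / 2) := by
      apply Real.le_sqrt_of_sq_le
      norm_num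
    have h10 : 0 < Real.sqrt |M| := Real.sqrt_pos.2 hMp
    rw [div_le_div_iff₀ (by positivity) h10]
    nlinarith
  refine (norm_add_le _ _).trans ?_
  refine (add_le_add_left ((norm_add_le _ _).trans (add_le_add_left ((norm_add_le _ _).trans
    (add_le_add_left (norm_add_le _ _) _)) _)) _).trans ?_
  have h11 : 27 / Real.sqrt |M| = 12 / Real.sqrt |M| + 12 / Real.sqrt |M| + 3 *
      (1 / Real.sqrt |M|) := by ring
  rw [h11]
  linarith

theorem bes_le_one (s : ℝ) : |bes s| ≤ 1 :=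
  (Pool.Agent.N507.HB.bes_le_k1 s).trans (k1_le_one s 0)

theorem bes_decay (s : ℝ) : |bes s| ≤ 54 * (1 + |s|) ^ (-(1 / 2) : ℝ) := by
  have h0 : 0 ≤ |s| := abs_nonneg s
  have h1 : 0 < 1 + |s| := by linarith
  rw [Real.rpow_neg h1.le, ← Real.sqrt_eq_rpow, ← div_eq_mul_inv]
  have h2 : 0 < Real.sqrt (1 + |s|) := Real.sqrt_pos.2 h1
  by_cases hs : 1 ≤ |s|
  · refine ((Pool.Agent.N507.HB.bes_le_k1 s).trans (k1_decay s hs)).trans ?_
    have h3 : 0 < Real.sqrt |s| := Real.sqrt_pos.2 (by linarith)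
    rw [div_le_div_iff₀ h3 h2]
    have h4 : Real.sqrt (1 + |s|) ≤ 2 * Real.sqrt |s| := by
      rw [Real.sqrt_le_left (by positivity), mul_pow, Real.sq_sqrt h0]
      linarith
    linarith
  · push Not at hs
    refine (bes_le_one s).trans ?_
    rw [le_div_iff₀ h2, one_mul]
    rw [Real.sqrt_le_left (by norm_num)]
    linarith

theorem bes_int : Integrable (fun s : ℝ => |bes s| ^ 3) := by
  have h1 : Integrable (fun s : ℝ => 54 ^ 3 * (1 + ‖s‖) ^ (-(3 / 2) : ℝ)) := by
    refine Integrable.const_mul ?_ _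
    apply integrable_one_add_norm
    simp
    norm_num
  refine h1.mono' ?_ (Eventually.of_forall fun s => ?_)
  · exact ((Pool.Agent.N507.HB.bes_cont.abs).pow 3).aestronglyMeasurable
  · rw [Real.norm_of_nonneg (by positivity), Real.norm_eq_abs]
    have h2 := bes_decay s
    have h3 : 0 < 1 + |s| := by positivity
    calc |bes s| ^ 3 ≤ (54 * (1 + |s|) ^ (-(1 / 2) : ℝ)) ^ 3 := by
          exact pow_le_pow_left₀ (abs_nonneg _) h2 3
      _ = 54 ^ 3 * (1 + |s|) ^ (-(3 / 2) : ℝ) := by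
          rw [mul_pow, ← Real.rpow_natCast ((1 + |s|) ^ (-(1 / 2) : ℝ)) 3, ← Real.rpow_mul h3.le]
          norm_num

theorem main : S_GAU → S_D3U := by
  intro hG d hd
  set B := ∫ s : ℝ, |bes s| ^ 3 with hB
  have hB0 : 0 ≤ B := integral_nonneg fun s => by positivity
  refine ⟨Real.exp (1 / 2) * B + 1, by positivity, fun E ρ hρ => ?_⟩
  have h1 := hG d ρ E hρ
  set f : UnitAddTorus (Fin d) → ℝ := fun k => Real.exp (-((lap d k - E) ^ 2) / (2 * ρ ^ 2))
    with hf
  have hf0 : ∀ k, 0 ≤ f k := fun k => (Real.exp_pos _).le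
  have hfc : Continuous f := by
    have := (lap d).continuous
    simp only [hf]
    fun_prop
  have hfi : Integrable f := hfc.integrable_of_hasCompactSupport (HasCompactSupport.of_compactSpace f)
  have hA0 : 0 ≤ ∫ k, f k := integral_nonneg hf0
  -- the bound of the smoothed density
  have h2 : ∫ k, f k ≤ ρ * B := by
    have h3 : ‖((∫ k : UnitAddTorus (Fin d), f k : ℝ) : ℂ)‖ = ∫ k, f k := by
      rw [Complex.norm_real, Real.norm_of_nonneg hA0]
    rw [← h3, h1, norm_mul, Complex.norm_real]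
    have h4 : ‖ρ / Real.sqrt (2 * Real.pi)‖ ≤ ρ := by
      rw [Real.norm_of_nonneg (by positivity)]
      apply div_le_self hρ.le
      rw [Real.one_le_sqrt]
      linarith [Real.pi_gt_three]
    have h5 : ‖∫ s : ℝ, ((Real.exp (-(ρ ^ 2 * s ^ 2) / 2) : ℝ) : ℂ)
          * Complex.exp (Complex.I * s * (2 * d - E)) * ((bes s ^ d : ℝ) : ℂ)‖ ≤ B := by
      refine norm_integral_le_of_norm_le bes_int (Eventually.of_forall fun s => ?_)
      rw [norm_mul, norm_mul, Complex.norm_real, Complex.norm_real, norm_pow, Real.norm_eq_abs,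
        Real.norm_eq_abs]
      have e1 : |Real.exp (-(ρ ^ 2 * s ^ 2) / 2)| ≤ 1 := by
        rw [abs_of_pos (Real.exp_pos _), Real.exp_le_one_iff]
        have : 0 ≤ ρ ^ 2 * s ^ 2 := by positivity
        linarith
      have e2 : ‖Complex.exp (Complex.I * s * (2 * d - E))‖ = 1 := by
        rw [show Complex.I * (s : ℂ) * (2 * (d : ℂ) - (E : ℂ)) =
          ((s * (2 * d - E) : ℝ) : ℂ) * Complex.I by push_cast; ring]
        exact Complex.norm_exp_ofReal_mul_I _
      have e3 : |bes s| ^ d ≤ |bes s| ^ 3 :=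
        pow_le_pow_of_le_one (abs_nonneg _) (bes_le_one s) hd
      rw [e2, mul_one]
      calc |Real.exp (-(ρ ^ 2 * s ^ 2) / 2)| * |bes s| ^ d ≤ 1 * |bes s| ^ 3 := by gcongr
        _ = |bes s| ^ 3 := one_mul _
    exact mul_le_mul h4 h5 (norm_nonneg _) hρ.le
  -- Markov's inequality
  have h6 : Real.exp (-(1 / 2)) * dos d E ρ ≤ ∫ k, f k := by
    have h7 := mul_meas_ge_le_integral_of_nonneg (μ := (volume : Measure (UnitAddTorus (Fin d))))
      (f := f) (Eventually.of_forall hf0) hfi (Real.exp (-(1 / 2)))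
    refine le_trans ?_ h7
    refine mul_le_mul_of_nonneg_left ?_ (Real.exp_pos _).le
    unfold dos
    refine ENNReal.toReal_mono (measure_ne_top _ _) (measure_mono fun k hk => ?_)
    simp only [Set.mem_ofPred_eq] at hk ⊢
    simp only [hf]
    apply Real.exp_le_exp.2
    rw [neg_div, neg_le_neg_iff, div_le_div_iff₀ (by positivity) (by norm_num)]
    have h8 : (lap d k - E) ^ 2 ≤ ρ ^ 2 := by
      rw [← sq_abs]
      exact pow_le_pow_left₀ (abs_nonneg _) hk 2
    linarith
  have h9 : dos d E ρ = Real.exp (1 / 2) * (Real.exp (-(1 / 2)) * dos d E ρ) := by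
    rw [← mul_assoc, ← Real.exp_add]
    norm_num
  rw [h9]
  calc Real.exp (1 / 2) * (Real.exp (-(1 / 2)) * dos d E ρ) ≤ Real.exp (1 / 2) * (ρ * B) := by
        exact mul_le_mul_of_nonneg_left (h6.trans h2) (Real.exp_pos _).le
    _ ≤ (Real.exp (1 / 2) * B + 1) * ρ := by nlinarith

end

end Pool.Agent.N427.KS
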